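import Mathlib

/-!
# The undirected Sylow graph of a product of normal subgroups (MP_8e29f8_al)

`G = C₅ ≀ (3⁴ : S₅)` (regular wreath product), `A = ` the preimage of `3⁴`, `B = G`.  The edge
`{3, 5}` lies in the undirected Sylow graph of `A` and not in the one of `G`.
-/

namespace Pool.Agent.Results.MP_8e29f8_al.EdgeLost

/-- `p → q` in the Sylow graph: `q` divides `|N_H(P) : P C_H(P)|`, `P` a Sylow `p`-subgroup. -/
def SylowArc (H : Type) [Group H] (p q : ℕ) : Prop :=
  ∃ P : Sylow p H, q ∣ ((P : Subgroup H) ⊔ Subgroup.centralizer (P : Set H)).relIndex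
    (Subgroup.normalizer (P : Set H))

/-- `{p, q}` is an edge of the undirected Sylow graph. -/
def SylowEdge (H : Type) [Group H] (p q : ℕ) : Prop :=
  p ≠ q ∧ (SylowArc H p q ∨ SylowArc H q p)

/-! ## The group `L = 3⁴ : S₅` -/

/-- pairs (sum-zero vector over `ZMod 3`, permutation) -/
@[ext]
structure LL where
  w : Fin 5 → ZMod 3
  s : ∑ i, w i = 0
  g : Equiv.Perm (Fin 5)

namespace LL

instance : Mul LL := ⟨fun a b =>
  ⟨fun i => a.w i + b.w (a.g⁻¹ i), by
    rw [Finset.sum_add_distrib, a.s, Equiv.sum_comp (a.g⁻¹) b.w, b.s, add_zero],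
    a.g * b.g⟩⟩

instance : One LL := ⟨⟨fun _ => 0, by simp, 1⟩⟩

instance : Inv LL := ⟨fun a =>
  ⟨fun i => - a.w (a.g i), by
    rw [Finset.sum_neg_distrib, Equiv.sum_comp a.g a.w, a.s, neg_zero], a.g⁻¹⟩⟩

@[simp] lemma mul_w (a b : LL) (i : Fin 5) : (a * b).w i = a.w i + b.w (a.g⁻¹ i) := rfl
@[simp] lemma mul_g (a b : LL) : (a * b).g = a.g * b.g := rfl
@[simp] lemma one_w (i : Fin 5) : (1 : LL).w i = 0 := rfl
@[simp] lemma one_g : (1 : LL).g = 1 := rfl
@[simp] lemma inv_w (a : LL) (i : Fin 5) : (a⁻¹).w i = - a.w (a.g i) := rfl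
@[simp] lemma inv_g (a : LL) : (a⁻¹).g = a.g⁻¹ := rfl

instance : Group LL := Group.ofLeftAxioms
  (by
    intro a b c
    ext i
    · simp [add_assoc, mul_inv_rev]
    · simp)
  (by
    intro a
    ext i
    · simp
    · simp)
  (by
    intro a
    ext i
    · simp
    · simp)

instance : Finite LL := by
  refine Finite.of_injective (fun a : LL => (a.w, a.g)) ?_
  intro a b h
  simp only [Prod.mk.injEq] at h
  exact LL.ext h.1 h.2

/-- projection to `S₅` -/
def toPerm : LL →* Equiv.Perm (Fin 5) where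
  toFun a := a.g
  map_one' := rfl
  map_mul' _ _ := rfl

lemma toPerm_surj : Function.Surjective toPerm := fun g => ⟨⟨fun _ => 0, by simp, g⟩, rfl⟩

lemma pow_three_of_g {a : LL} (h : a.g = 1) : a ^ 3 = 1 := by
  rw [pow_succ, pow_succ, pow_one]
  ext i
  · simp only [mul_w, mul_g, h, one_w, inv_one, one_mul, Equiv.Perm.coe_one, id_eq]
    generalize a.w i = x
    revert x
    decide
  · simp [h]

end LL

/-- the big group -/
abbrev GG : Type := RegularWreathProduct (Multiplicative (ZMod 5)) LL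

/-- `G → L` -/
def fL : GG →* LL := RegularWreathProduct.rightHom

/-- `G → S₅` -/
def fS : GG →* Equiv.Perm (Fin 5) := LL.toPerm.comp fL

lemma fL_surj : Function.Surjective fL := fun l => ⟨RegularWreathProduct.inl l, rfl⟩

lemma fS_surj : Function.Surjective fS := LL.toPerm_surj.comp fL_surj

lemma fS_apply (x : GG) : fS x = (fL x).g := rfl

lemma pow_five_ker {x : GG} (h : fL x = 1) : x ^ 5 = 1 := by
  have h' : x.right = 1 := h
  have key : ∀ n : ℕ, (x ^ n).left = x.left ^ n ∧ (x ^ n).right = 1 := by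
    intro n
    induction n with
    | zero => exact ⟨by simp, by simp⟩
    | succ n ih =>
      rw [pow_succ]
      refine ⟨?_, ?_⟩
      · rw [RegularWreathProduct.mul_left, ih.1, ih.2]
        funext y
        simp [pow_succ]
      · rw [RegularWreathProduct.mul_right, ih.2, h', one_mul]
  apply RegularWreathProduct.ext
  · funext y
    rw [(key 5).1]
    simp only [Pi.pow_apply, RegularWreathProduct.one_left, Pi.one_apply]
    generalize x.left y = z
    revert z
    decide
  · rw [(key 5).2]; rfl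

lemma five_nsmul_zmod3 : ∀ z : ZMod 3, 5 • z = 0 → z = 0 := by decide

lemma vec_sum : ∑ i, (![1, 2, 0, 0, 0] : Fin 5 → ZMod 3) i = 0 := by decide

lemma one_ne_zero3 : (1 : ZMod 3) ≠ 0 := by decide

lemma gen_ne_one : (Multiplicative.ofAdd (1 : ZMod 5)) ≠ 1 := by decide

/-! ## elementary facts on permutations of five points -/

lemma fix_of_pow {π : Equiv.Perm (Fin 5)} (h5 : π ^ 5 = 1) {k : ℕ} (hk0 : 0 < k) (hk : k < 5)
    {a : Fin 5} (h : (π ^ k) a = a) : π a = a := by
  have h5' : (π ^ 5) a = a := by rw [h5]; rfl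
  interval_cases k
  · simpa using h
  · have : (π ^ 5) a = π ((π ^ 2) ((π ^ 2) a)) := by
      rw [← Equiv.Perm.mul_apply, ← Equiv.Perm.mul_apply]; congr 1
    rw [this, h, h] at h5'
    exact h5'
  · have : (π ^ 3) ((π ^ 3) a) = π ((π ^ 5) a) := by
      rw [← Equiv.Perm.mul_apply, ← Equiv.Perm.mul_apply]; congr 1
    rw [h, h, h5'] at this
    exact this.symm
  · have : (π ^ 5) a = π ((π ^ 4) a) := by
      rw [← Equiv.Perm.mul_apply]; congr 1
    rw [h, h5'] at this
    exact this.symm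

/-- a permutation commuting with a five-cycle is a power of it; the five-cycle is transitive -/
lemma trans_of_five {π : Equiv.Perm (Fin 5)} (h5 : π ^ 5 = 1) (hne : π ≠ 1) :
    ∃ a : Fin 5, ∀ b : Fin 5, ∃ k : ℕ, (π ^ k) a = b := by
  obtain ⟨a, ha⟩ : ∃ a, π a ≠ a := by
    by_contra hcon
    push Not at hcon
    exact hne (Equiv.ext fun a => by simpa using hcon a)
  refine ⟨a, ?_⟩
  have hinj : Function.Injective (fun k : Fin 5 => (π ^ (k : ℕ)) a) := by
    intro k l hkl
    simp only at hkl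
    by_contra hne'
    wlog hlt : k < l generalizing k l
    · exact this hkl.symm (Ne.symm hne') (lt_of_le_of_ne (not_lt.1 hlt) (Ne.symm hne'))
    have h1 : (l : ℕ) = (k : ℕ) + ((l : ℕ) - (k : ℕ)) := by omega
    rw [h1, pow_add, Equiv.Perm.mul_apply] at hkl
    have h2 := (π ^ (k : ℕ)).injective hkl
    exact ha (fix_of_pow h5 (by omega) (by omega) h2.symm)
  have hsurj := Finite.surjective_of_injective hinj
  intro b
  obtain ⟨k, hk⟩ := hsurj b
  exact ⟨k, hk⟩

lemma pow_of_commute {π r : Equiv.Perm (Fin 5)} (h5 : π ^ 5 = 1) (hne : π ≠ 1)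
    (hc : Commute π r) : ∃ j : ℕ, r = π ^ j := by
  obtain ⟨a, ha⟩ := trans_of_five h5 hne
  obtain ⟨j, hj⟩ := ha (r a)
  refine ⟨j, Equiv.ext fun b => ?_⟩
  obtain ⟨k, rfl⟩ := ha b
  have h1 : r ((π ^ k) a) = (π ^ k) (r a) := by
    rw [← Equiv.Perm.mul_apply, ← Equiv.Perm.mul_apply, (hc.pow_left k).eq]
  rw [h1, ← hj, ← Equiv.Perm.mul_apply, ← Equiv.Perm.mul_apply, ← pow_add, ← pow_add, add_comm]

lemma card_perm : Nat.card (Equiv.Perm (Fin 5)) = 120 := by
  rw [Nat.card_eq_fintype_card, Fintype.card_perm]; decide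

lemma card_sylow (p : ℕ) [Fact p.Prime] (hp : p = 3 ∨ p = 5) (P : Sylow p (Equiv.Perm (Fin 5))) :
    Nat.card P = p := by
  rw [P.card_eq_multiplicity, card_perm]
  rcases hp with rfl | rfl
  · have : (120 : ℕ).factorization 3 = 1 := by
      rw [show (120 : ℕ) = 3 * 40 by norm_num, Nat.factorization_mul (by norm_num) (by norm_num),
        Finsupp.add_apply, Nat.Prime.factorization_self (by norm_num),
        Nat.factorization_eq_zero_of_not_dvd (by norm_num)]
    rw [this, pow_one]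
  · have : (120 : ℕ).factorization 5 = 1 := by
      rw [show (120 : ℕ) = 5 * 24 by norm_num, Nat.factorization_mul (by norm_num) (by norm_num),
        Finsupp.add_apply, Nat.Prime.factorization_self (by norm_num),
        Nat.factorization_eq_zero_of_not_dvd (by norm_num)]
    rw [this, pow_one]

/-- in a subgroup of prime order, everything is a power of a nontrivial element -/
lemma pow_of_card_prime {H : Type} [Group H] {p : ℕ} [hp : Fact p.Prime] (R : Subgroup H)
    (hR : Nat.card R = p) {c : H} (hc : c ∈ R) (hc1 : c ≠ 1) {x : H} (hx : x ∈ R) :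
    ∃ k < p, x = c ^ k := by
  have hc' : (⟨c, hc⟩ : R) ≠ 1 := fun h => hc1 (congrArg Subtype.val h)
  have ho : orderOf (⟨c, hc⟩ : R) = p := by
    have h1 : orderOf (⟨c, hc⟩ : R) ∣ p := hR ▸ orderOf_dvd_natCard _
    rcases (Nat.dvd_prime hp.out).1 h1 with h | h
    · exact absurd (orderOf_eq_one_iff.1 h) hc'
    · exact h
  classical
  have : Finite R := Nat.finite_of_card_ne_zero (by rw [hR]; exact hp.out.ne_zero)
  have h2 : (⟨x, hx⟩ : R) ∈ Subgroup.zpowers (⟨c, hc⟩ : R) := by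
    have : Subgroup.zpowers (⟨c, hc⟩ : R) = ⊤ := by
      apply Subgroup.eq_top_of_card_eq
      rw [Nat.card_zpowers, ho, hR]
    rw [this]; trivial
  rw [mem_zpowers_iff_mem_range_orderOf] at h2
  simp only [Finset.mem_image, Finset.mem_range] at h2
  obtain ⟨k, hk, hk2⟩ := h2
  refine ⟨k, by rwa [ho] at hk, ?_⟩
  have := congrArg Subtype.val hk2
  simpa using this.symm

/-! ## No arc between `3` and `5` in `G` -/

lemma eq_one_of_pows {H : Type} [Group H] {x : H} {m n : ℕ} (hm : x ^ m = 1) (hn : x ^ n = 1)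
    (h : Nat.Coprime m n) : x = 1 := by
  have h1 : orderOf x ∣ m := orderOf_dvd_of_pow_eq_one hm
  have h2 : orderOf x ∣ n := orderOf_dvd_of_pow_eq_one hn
  have h3 : orderOf x ∣ 1 := by
    rw [← h]
    exact Nat.dvd_gcd h1 h2
  exact orderOf_eq_one_iff.1 (Nat.dvd_one.1 h3)

lemma no_arc_53 : ¬ SylowArc GG 5 3 := by
  rintro ⟨P, hP⟩
  have : Fact (Nat.Prime 5) := ⟨by norm_num⟩
  have : Fact (Nat.Prime 3) := ⟨by norm_num⟩
  have h3 : 3 ∣ Nat.card (Subgroup.normalizer (P : Set GG)) :=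
    hP.trans (Subgroup.relIndex_dvd_card _ _)
  obtain ⟨⟨x, hxN⟩, hx⟩ := exists_prime_orderOf_dvd_card' 3 h3
  have hx3 : x ^ 3 = 1 := by
    have := pow_orderOf_eq_one (⟨x, hxN⟩ : Subgroup.normalizer (P : Set GG))
    rw [hx] at this
    exact congrArg Subtype.val this
  have hx1 : x ≠ 1 := by
    rintro rfl
    have : (⟨1, hxN⟩ : Subgroup.normalizer (P : Set GG)) = 1 := rfl
    rw [this, orderOf_one] at hx
    norm_num at hx
  -- image in `S₅`
  set R : Sylow 5 (Equiv.Perm (Fin 5)) := P.mapSurjective fS_surj with hR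
  have hRc : Nat.card R = 5 := card_sylow 5 (Or.inr rfl) R
  have hmemR : ∀ y ∈ P, fS y ∈ (R : Subgroup (Equiv.Perm (Fin 5))) := by
    intro y hy
    rw [hR, Sylow.coe_mapSurjective]
    exact ⟨y, hy, rfl⟩
  obtain ⟨c, hcR, hc1⟩ : ∃ c ∈ (R : Subgroup (Equiv.Perm (Fin 5))), c ≠ 1 := by
    by_contra hcon
    push Not at hcon
    have : (R : Subgroup (Equiv.Perm (Fin 5))) = ⊥ := (Subgroup.eq_bot_iff_forall _).2 hcon
    have h2 : Nat.card (R : Subgroup (Equiv.Perm (Fin 5))) = 1 := by rw [this]; simp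
    have h3 : Nat.card (R : Subgroup (Equiv.Perm (Fin 5))) = 5 := hRc
    omega
  obtain ⟨t, htP, htc⟩ : ∃ t ∈ P, fS t = c := by
    have := hcR
    rw [hR, Sylow.coe_mapSurjective] at this
    obtain ⟨t, ht, rfl⟩ := this
    exact ⟨t, ht, rfl⟩
  have hc5 : c ^ 5 = 1 := by
    have : (⟨c, hcR⟩ : (R : Subgroup (Equiv.Perm (Fin 5)))) ^ 5 = 1 := by
      have h := pow_card_eq_one' (x := (⟨c, hcR⟩ : (R : Subgroup (Equiv.Perm (Fin 5)))))
      rwa [show Nat.card (R : Subgroup (Equiv.Perm (Fin 5))) = 5 from hRc] at h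
    exact congrArg Subtype.val this
  have hconjP : ∀ y ∈ P, x * y * x⁻¹ ∈ P := fun y hy => (Subgroup.mem_normalizer_iff.1 hxN y).1 hy
  set π := fS x with hπ
  have hπ3 : π ^ 3 = 1 := by rw [hπ, ← map_pow, hx3, map_one]
  have hconj : π * c * π⁻¹ ∈ (R : Subgroup (Equiv.Perm (Fin 5))) := by
    have := hmemR _ (hconjP t htP)
    rwa [map_mul, map_mul, map_inv, htc] at this
  obtain ⟨k, hk5, hk⟩ := pow_of_card_prime (p := 5) (R : Subgroup (Equiv.Perm (Fin 5))) hRc hcR hc1
    hconj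
  have hconjk : ∀ m : ℕ, π * c ^ m * π⁻¹ = c ^ (k * m) := by
    intro m
    rw [← conj_pow, hk, ← pow_mul]
  have hck : c = c ^ (k * (k * k)) := by
    have h1 : π * (π * (π * c * π⁻¹) * π⁻¹) * π⁻¹ = c := by
      have : π * (π * (π * c * π⁻¹) * π⁻¹) * π⁻¹ = π ^ 3 * c * (π ^ 3)⁻¹ := by
        rw [pow_succ, pow_succ, pow_one]; group
      rw [this, hπ3]; simp
    rw [hk, hconjk, hconjk] at h1
    exact h1.symm
  have hk1 : k = 1 := by
    have hoc : orderOf c = 5 := orderOf_eq_prime hc5 hc1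
    have h1 : c ^ 1 = c ^ (k * (k * k)) := by rwa [pow_one]
    have h2 := (pow_inj_mod (x := c)).1 h1
    rw [hoc] at h2
    interval_cases k <;> simp at h2 ⊢
  have hcomm : Commute c π := by
    rw [hk1, pow_one] at hk
    have : π * c = c * π := by
      calc π * c = (π * c * π⁻¹) * π := by group
        _ = c * π := by rw [hk]
    exact this.symm
  obtain ⟨j, hj⟩ := pow_of_commute hc5 hc1 hcomm
  have hπ1 : π = 1 := by
    refine eq_one_of_pows hπ3 (n := 5) ?_ (by norm_num)
    rw [hj, ← pow_mul, mul_comm, pow_mul, hc5, one_pow]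
  -- now `fL x` lies in `W`
  have hxg : (fL x).g = 1 := hπ1
  have htg : (fL t).g = c := htc
  have hcommP : x * t * x⁻¹ * t⁻¹ ∈ P := P.mul_mem (hconjP t htP) (P.inv_mem htP)
  have hz : fL (x * t * x⁻¹ * t⁻¹) = 1 := by
    have hg : (fL (x * t * x⁻¹ * t⁻¹)).g = 1 := by
      simp [map_mul, map_inv, hxg]
    have h3' : (fL (x * t * x⁻¹ * t⁻¹)) ^ 3 = 1 := LL.pow_three_of_g hg
    obtain ⟨m, hm⟩ := (IsPGroup.iff_orderOf.1 P.2) ⟨_, hcommP⟩
    have h5' : (x * t * x⁻¹ * t⁻¹) ^ (5 ^ m) = 1 := by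
      have := pow_orderOf_eq_one (⟨_, hcommP⟩ : P)
      rw [hm] at this
      exact congrArg Subtype.val this
    refine eq_one_of_pows (n := 5 ^ m) h3' ?_ ?_
    · rw [← map_pow, h5', map_one]
    · exact Nat.Coprime.pow_right _ (by norm_num)
  have hfx : fL x = 1 := by
    have hw : ∀ i, (fL x).w (c i) = (fL x).w i := by
      intro i
      have h1 : fL x * fL t = fL t * fL x := by
        have h2 : fL x * fL t * (fL x)⁻¹ * (fL t)⁻¹ = 1 := by
          simpa [map_mul, map_inv] using hz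
        calc fL x * fL t = (fL x * fL t * (fL x)⁻¹ * (fL t)⁻¹) * (fL t * fL x) := by group
          _ = fL t * fL x := by rw [h2, one_mul]
      have h2 := congrArg (fun l : LL => l.w (c i)) h1
      have hcc : c⁻¹ (c i) = i := by simp
      simp only [LL.mul_w, hxg, htg, inv_one, Equiv.Perm.coe_one, id_eq, hcc] at h2
      have h3 : (fL x).w (c i) + (fL t).w (c i) = (fL x).w i + (fL t).w (c i) := by
        rw [h2]; ring
      exact add_right_cancel h3
    obtain ⟨a, ha⟩ := trans_of_five hc5 hc1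
    have hconst : ∀ b, (fL x).w b = (fL x).w a := by
      intro b
      obtain ⟨k, rfl⟩ := ha b
      clear hk
      induction k with
      | zero => simp
      | succ n ih => rw [pow_succ', Equiv.Perm.mul_apply, hw, ih]
    have hs := (fL x).s
    have h0 : (fL x).w a = 0 := by
      rw [Finset.sum_congr rfl fun i _ => hconst i] at hs
      simp only [Finset.sum_const, Finset.card_univ, Fintype.card_fin] at hs
      exact five_nsmul_zmod3 _ hs
    ext i
    · rw [hconst i, h0]; rfl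
    · exact congrArg (fun g : Equiv.Perm (Fin 5) => ((g i : Fin 5) : ℕ)) hxg
  exact hx1 (eq_one_of_pows hx3 (pow_five_ker hfx) (by norm_num))

lemma no_arc_35 : ¬ SylowArc GG 3 5 := by
  rintro ⟨Q, hQ⟩
  have : Fact (Nat.Prime 5) := ⟨by norm_num⟩
  have : Fact (Nat.Prime 3) := ⟨by norm_num⟩
  set N := Subgroup.normalizer (Q : Set GG) with hN
  set K := ((Q : Subgroup GG) ⊔ Subgroup.centralizer (Q : Set GG)) with hK
  -- a 5-element of `N` outside `K`
  obtain ⟨P⟩ : Nonempty (Sylow 5 N) := inferInstance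
  obtain ⟨x, hxP, hxK⟩ : ∃ x ∈ P, x ∉ K.subgroupOf N := by
    by_contra hcon
    push Not at hcon
    have hle : (P : Subgroup N) ≤ K.subgroupOf N := hcon
    exact P.not_dvd_index (hQ.trans (Subgroup.index_dvd_of_le hle))
  obtain ⟨m, hm⟩ := (IsPGroup.iff_orderOf.1 P.2) ⟨x, hxP⟩
  have hxm : (x : GG) ^ (5 ^ m) = 1 := by
    have := pow_orderOf_eq_one (⟨x, hxP⟩ : P)
    rw [hm] at this
    have h2 := congrArg Subtype.val this
    exact congrArg Subtype.val h2
  have hxC : (x : GG) ∉ Subgroup.centralizer (Q : Set GG) := fun h =>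
    hxK (Subgroup.mem_subgroupOf.2 ((le_sup_right : _ ≤ K) h))
  apply hxC
  have hconjQ : ∀ y ∈ Q, (x : GG) * y * (x : GG)⁻¹ ∈ Q := fun y hy =>
    (Subgroup.mem_normalizer_iff.1 x.2 y).1 hy
  -- image in `S₅`
  set R : Sylow 3 (Equiv.Perm (Fin 5)) := Q.mapSurjective fS_surj with hR
  have hRc : Nat.card (R : Subgroup (Equiv.Perm (Fin 5))) = 3 := card_sylow 3 (Or.inl rfl) R
  have hmemR : ∀ y ∈ Q, fS y ∈ (R : Subgroup (Equiv.Perm (Fin 5))) := by
    intro y hy
    rw [hR, Sylow.coe_mapSurjective]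
    exact ⟨y, hy, rfl⟩
  obtain ⟨r, hrR, hr1⟩ : ∃ c ∈ (R : Subgroup (Equiv.Perm (Fin 5))), c ≠ 1 := by
    by_contra hcon
    push Not at hcon
    have : (R : Subgroup (Equiv.Perm (Fin 5))) = ⊥ := (Subgroup.eq_bot_iff_forall _).2 hcon
    have h2 : Nat.card (R : Subgroup (Equiv.Perm (Fin 5))) = 1 := by rw [this]; simp
    omega
  obtain ⟨t, htQ, htr⟩ : ∃ t ∈ Q, fS t = r := by
    have := hrR
    rw [hR, Sylow.coe_mapSurjective] at this
    obtain ⟨t, ht, rfl⟩ := this
    exact ⟨t, ht, rfl⟩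
  have hr3 : r ^ 3 = 1 := by
    have : (⟨r, hrR⟩ : (R : Subgroup (Equiv.Perm (Fin 5)))) ^ 3 = 1 := by
      have h := pow_card_eq_one' (x := (⟨r, hrR⟩ : (R : Subgroup (Equiv.Perm (Fin 5)))))
      rwa [hRc] at h
    exact congrArg Subtype.val this
  set π := fS (x : GG) with hπ
  have hπm : π ^ (5 ^ m) = 1 := by rw [hπ, ← map_pow, hxm, map_one]
  have hconj : π * r * π⁻¹ ∈ (R : Subgroup (Equiv.Perm (Fin 5))) := by
    have := hmemR _ (hconjQ t htQ)
    rwa [map_mul, map_mul, map_inv, htr] at this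
  obtain ⟨k, hk3, hk⟩ := pow_of_card_prime (p := 3) (R : Subgroup (Equiv.Perm (Fin 5))) hRc hrR hr1
    hconj
  have hconjk : ∀ n : ℕ, π * r ^ n * π⁻¹ = r ^ (k * n) := by
    intro n
    rw [← conj_pow, hk, ← pow_mul]
  have hcomm2 : Commute (π ^ 2) r := by
    have h1 : π ^ 2 * r * (π ^ 2)⁻¹ = r ^ (k * k) := by
      have : π ^ 2 * r * (π ^ 2)⁻¹ = π * (π * r * π⁻¹) * π⁻¹ := by
        rw [pow_two]; group
      rw [this, hk, hconjk]
    have h2 : r ^ (k * k) = r := by
      have hk0 : k ≠ 0 := by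
        rintro rfl
        rw [pow_zero] at hk
        apply hr1
        have : r = π⁻¹ * (π * r * π⁻¹) * π := by group
        rw [this, hk]; group
      interval_cases k
      · exact absurd rfl hk0
      · simp
      · calc r ^ (2 * 2) = r ^ 3 * r := by rw [← pow_succ]
          _ = r := by rw [hr3, one_mul]
    rw [h2] at h1
    have : π ^ 2 * r = r * π ^ 2 := by
      calc π ^ 2 * r = (π ^ 2 * r * (π ^ 2)⁻¹) * π ^ 2 := by group
        _ = r * π ^ 2 := by rw [h1]
    exact this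
  have hcomm : Commute π r := by
    have hodd : Odd (5 ^ m) := Odd.pow (by decide)
    obtain ⟨n, hn⟩ := hodd
    have : π = (π ^ 2) ^ (n + 1) := by
      calc π = π ^ (5 ^ m) * π := by rw [hπm, one_mul]
        _ = π ^ (5 ^ m + 1) := (pow_succ _ _).symm
        _ = π ^ (2 * (n + 1)) := by rw [hn]; congr 1
        _ = _ := pow_mul _ _ _
    rw [this]
    exact hcomm2.pow_left _
  have hπ5 : π ^ 5 = 1 := by
    have h1 : orderOf π ∣ 5 ^ m := orderOf_dvd_of_pow_eq_one hπm
    have h2 : orderOf π ∣ 120 := by rw [← card_perm]; exact orderOf_dvd_natCard π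
    have h3 : orderOf π ∣ Nat.gcd (5 ^ m) (5 * 24) := Nat.dvd_gcd h1 h2
    have h4 : Nat.gcd (5 ^ m) (5 * 24) ∣ 5 := by
      have h5 : Nat.Coprime (5 ^ m) 24 := Nat.Coprime.pow_left _ (by norm_num)
      have h6 : Nat.Coprime (Nat.gcd (5 ^ m) (5 * 24)) 24 :=
        Nat.Coprime.coprime_dvd_left (Nat.gcd_dvd_left _ _) h5
      exact h6.dvd_of_dvd_mul_right (Nat.gcd_dvd_right _ _)
    exact orderOf_dvd_iff_pow_eq_one.1 (h3.trans h4)
  have hπ1 : π = 1 := by
    by_contra hne
    obtain ⟨j, hj⟩ := pow_of_commute hπ5 hne hcomm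
    apply hr1
    refine eq_one_of_pows hr3 (n := 5) ?_ (by norm_num)
    rw [hj, ← pow_mul, mul_comm, pow_mul, hπ5, one_pow]
  have hfx : fL (x : GG) = 1 := by
    refine eq_one_of_pows (LL.pow_three_of_g (a := fL (x : GG)) hπ1) (n := 5 ^ m) ?_ ?_
    · rw [← map_pow, hxm, map_one]
    · exact Nat.Coprime.pow_right _ (by norm_num)
  rw [Subgroup.mem_centralizer_iff]
  intro y hy
  have hcQ : (x : GG) * y * (x : GG)⁻¹ * y⁻¹ ∈ Q := Q.mul_mem (hconjQ y hy) (Q.inv_mem hy)
  have hck : fL ((x : GG) * y * (x : GG)⁻¹ * y⁻¹) = 1 := by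
    simp [map_mul, map_inv, hfx]
  obtain ⟨n, hn⟩ := (IsPGroup.iff_orderOf.1 Q.2) ⟨_, hcQ⟩
  have h3' : ((x : GG) * y * (x : GG)⁻¹ * y⁻¹) ^ (3 ^ n) = 1 := by
    have := pow_orderOf_eq_one (⟨_, hcQ⟩ : Q)
    rw [hn] at this
    exact congrArg Subtype.val this
  have h1 : (x : GG) * y * (x : GG)⁻¹ * y⁻¹ = 1 :=
    eq_one_of_pows (pow_five_ker hck) h3' (Nat.Coprime.pow_right _ (by norm_num))
  calc y * (x : GG) = ((x : GG) * y * (x : GG)⁻¹ * y⁻¹)⁻¹ * ((x : GG) * y) := by group
    _ = (x : GG) * y := by rw [h1]; simp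

/-! ## The arc `5 → 3` in `A` -/

/-- the normal subgroup `A`: preimage of `W` -/
def AA : Subgroup GG := fS.ker

lemma arc_A : SylowArc AA 5 3 := by
  have : Fact (Nat.Prime 5) := ⟨by norm_num⟩
  have : Fact (Nat.Prime 3) := ⟨by norm_num⟩
  set fA : AA →* LL := fL.comp AA.subtype with hfA
  set V : Subgroup AA := fA.ker with hV
  have hVp : IsPGroup 5 V := by
    intro v
    refine ⟨1, ?_⟩
    apply Subtype.ext
    apply Subtype.ext
    have : fL ((v : AA) : GG) = 1 := v.2
    have h := pow_five_ker this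
    simpa using h
  have h3 : IsPGroup 3 (AA ⧸ V) := by
    intro a
    refine ⟨1, ?_⟩
    induction a using QuotientGroup.induction_on with
    | H a =>
      rw [pow_one, ← QuotientGroup.mk_pow, QuotientGroup.eq_one_iff]
      have h1 : (fL (a : GG)).g = 1 := a.2
      have h2 := LL.pow_three_of_g h1
      change fL (((a ^ 3 : AA)) : GG) = 1
      rw [Subgroup.coe_pow, map_pow, h2]
  obtain ⟨n, hn⟩ := IsPGroup.iff_card.1 h3
  have hidx : V.index = 3 ^ n := by rw [← hn]; exact Subgroup.index_eq_card V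
  have hnd : ¬ 5 ∣ V.index := by
    rw [hidx]
    intro h
    have := (Nat.Prime.dvd_of_dvd_pow (by norm_num : Nat.Prime 5) h)
    norm_num at this
  refine ⟨hVp.toSylow hnd, ?_⟩
  set P := hVp.toSylow hnd with hP
  have hPV : (P : Subgroup AA) = V := IsPGroup.toSylow_coe hVp hnd
  have hPset : (P : Set AA) = (V : Set AA) := congrArg (fun H : Subgroup AA => (H : Set AA)) hPV
  have hnorm : Subgroup.normalizer (P : Set AA) = ⊤ := by
    rw [hPset]
    exact Subgroup.normalizer_eq_top_iff.2 inferInstance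
  rw [hnorm, Subgroup.relIndex_top_right, hPV, hPset]
  set K := V ⊔ Subgroup.centralizer (V : Set AA) with hK
  have hdvd : K.index ∣ 3 ^ n := by
    rw [← hidx]
    exact Subgroup.index_dvd_of_le le_sup_left
  obtain ⟨j, hj, hKj⟩ := (Nat.dvd_prime_pow (by norm_num : Nat.Prime 3)).1 hdvd
  rw [hKj]
  rcases Nat.eq_zero_or_pos j with h0 | hpos
  · exfalso
    rw [h0, pow_zero, Subgroup.index_eq_one] at hKj
    have hVC : V ≤ Subgroup.centralizer (V : Set AA) := by
      intro v hv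
      rw [Subgroup.mem_centralizer_iff]
      intro u hu
      have hv' : ((v : AA) : GG).right = 1 := hv
      have hu' : ((u : AA) : GG).right = 1 := hu
      apply Subtype.ext
      apply RegularWreathProduct.ext
      · funext y
        simp [hv', hu', mul_comm]
      · simp [hv', hu']
    have hC : Subgroup.centralizer (V : Set AA) = ⊤ := by
      rw [← hKj, hK]
      exact (sup_eq_right.2 hVC).symm
    -- an element of `A` moving `V`
    let l : LL := ⟨![1, 2, 0, 0, 0], vec_sum, 1⟩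
    have hl : l ≠ 1 := by
      intro h
      have h0 : (1 : ZMod 3) = 0 := congrArg (fun a : LL => a.w 0) h
      exact one_ne_zero3 h0
    let a : AA := ⟨RegularWreathProduct.inl l, by
      change fS (RegularWreathProduct.inl l) = 1
      rfl⟩
    classical
    let c : Multiplicative (ZMod 5) := Multiplicative.ofAdd 1
    have hc : c ≠ 1 := gen_ne_one
    let vG : GG := ⟨Pi.mulSingle 1 c, 1⟩
    let v : AA := ⟨vG, by change fS vG = 1; rfl⟩
    have hvV : v ∈ V := by
      change fL vG = 1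
      rfl
    have ha : a ∈ Subgroup.centralizer (V : Set AA) := by rw [hC]; trivial
    rw [Subgroup.mem_centralizer_iff] at ha
    have h1 := ha v hvV
    have h2 := congrArg (fun z : AA => ((z : GG)).left l) h1
    simp [v, vG, a, Pi.mulSingle_apply, hl] at h2
    exact hc h2.symm
  · exact dvd_pow_self 3 hpos.ne'

/-- **Theorem.** There are a finite group `G = A B`, `A` and `B` normal, and primes `p`, `q` joined
in the undirected Sylow graph of `A` but not in that of `G`. -/
theorem result : ∃ (G : Type) (_ : Group G) (_ : Finite G) (A B : Subgroup G),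
    A.Normal ∧ B.Normal ∧ A ⊔ B = ⊤ ∧
      ∃ p q : ℕ, p.Prime ∧ q.Prime ∧ SylowEdge A p q ∧ ¬ SylowEdge G p q := by
  refine ⟨GG, inferInstance, inferInstance, AA, ⊤, ?_, inferInstance, by simp, 3, 5,
    by norm_num, by norm_num, ⟨by norm_num, Or.inr arc_A⟩, ?_⟩
  · exact MonoidHom.normal_ker fS
  · rintro ⟨_, h | h⟩
    · exact no_arc_35 h
    · exact no_arc_53 h

end Pool.Agent.Results.MP_8e29f8_al.EdgeLost
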